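import Pool.Agent.W940.LSD.Stm

/-!
# The sum of `MM` over the box
-/

set_option autoImplicit false

namespace Pool.Agent.W481.LSD

open Finset Filter Pool.Agent.W307.LS Pool.Agent.W940.LSD

open scoped Classical

/-- the nonzero multiples of `d` of absolute value at most `T` -/
noncomputable def II (T : ℕ) (d : ℕ) : Finset ℤ :=
  (Icc (-(T : ℤ)) T).filter (fun a => a ≠ 0 ∧ (d : ℤ) ∣ a)

theorem card_II (T d : ℕ) : ((II T d).card : ℝ) ≤ 2 * (T : ℝ) / d := by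
  set F : Finset ℕ := (Ioc 0 T).filter (fun k => d ∣ k) with hF
  have hsub : II T d ⊆ F.image (fun k : ℕ => (k : ℤ)) ∪ F.image (fun k : ℕ => -(k : ℤ)) := by
    intro a ha
    rw [II, mem_filter, mem_Icc] at ha
    obtain ⟨⟨h1, h2⟩, h3, h4⟩ := ha
    have hk : a.natAbs ∈ F := by
      rw [hF, mem_filter, mem_Ioc]
      refine ⟨⟨Int.natAbs_pos.2 h3, by omega⟩, ?_⟩
      exact Int.natCast_dvd.1 h4
    rw [mem_union, mem_image, mem_image]
    rcases Int.natAbs_eq a with h | h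
    · left
      exact ⟨a.natAbs, hk, h.symm⟩
    · right
      exact ⟨a.natAbs, hk, h.symm⟩
  have hcF : F.card = T / d := Nat.Ioc_filter_dvd_card_eq_div T d
  have h1 : (II T d).card ≤ 2 * (T / d) := by
    calc (II T d).card ≤ (F.image (fun k : ℕ => (k : ℤ)) ∪ F.image (fun k : ℕ => -(k : ℤ))).card :=
          card_le_card hsub
      _ ≤ (F.image (fun k : ℕ => (k : ℤ))).card + (F.image (fun k : ℕ => -(k : ℤ))).card :=
          card_union_le _ _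
      _ ≤ F.card + F.card := Nat.add_le_add card_image_le card_image_le
      _ = 2 * (T / d) := by rw [hcF]; ring
  calc ((II T d).card : ℝ) ≤ ((2 * (T / d) : ℕ) : ℝ) := by exact_mod_cast h1
    _ = 2 * ((T / d : ℕ) : ℝ) := by push_cast; ring
    _ ≤ 2 * ((T : ℝ) / d) := mul_le_mul_of_nonneg_left Nat.cast_div_le (by norm_num)
    _ = 2 * (T : ℝ) / d := by ring

theorem dvd_cases (p : ℕ) (hp : p.Prime) (a b : ℤ) (h : (p : ℤ) ^ 2 ∣ a * b) :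
    (p : ℤ) ^ 2 ∣ a ∨ (p : ℤ) ^ 2 ∣ b ∨ ((p : ℤ) ∣ a ∧ (p : ℤ) ∣ b) := by
  have hpi : Prime (p : ℤ) := Nat.prime_iff_prime_int.1 hp
  by_cases ha : (p : ℤ) ∣ a
  · by_cases hb : (p : ℤ) ∣ b
    · exact Or.inr (Or.inr ⟨ha, hb⟩)
    · left
      have hc : IsCoprime ((p : ℤ) ^ 2) b := by
        apply IsCoprime.pow_left
        exact (hpi.coprime_iff_not_dvd).2 hb
      exact hc.dvd_of_dvd_mul_right h
  · right
    left
    have hc : IsCoprime ((p : ℤ) ^ 2) a := by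
      apply IsCoprime.pow_left
      exact (hpi.coprime_iff_not_dvd).2 ha
    exact hc.dvd_of_dvd_mul_left h

theorem mem_Bx {T : ℕ} {t : ℤ × ℤ} (ht : t ∈ Bx T) :
    t.1 ∈ Icc (-(T : ℤ)) T ∧ t.2 ∈ Icc (-(T : ℤ)) T ∧ t.1 ≠ 0 ∧ t.2 ≠ 0 := by
  rw [Bx, mem_filter, mem_product] at ht
  exact ⟨ht.1.1, ht.1.2, ht.2.1, ht.2.2.1⟩

theorem card_p (T p : ℕ) (hp : p.Prime) :
    (((Bx T).filter (fun t => (p : ℤ) ^ 2 ∣ t.1 * t.2)).card : ℝ) ≤
      12 * (T : ℝ) ^ 2 * ((p : ℝ) ^ 2)⁻¹ := by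
  have hsub : (Bx T).filter (fun t => (p : ℤ) ^ 2 ∣ t.1 * t.2) ⊆
      (II T (p ^ 2) ×ˢ II T 1) ∪ ((II T 1 ×ˢ II T (p ^ 2)) ∪ (II T p ×ˢ II T p)) := by
    intro t ht
    rw [mem_filter] at ht
    obtain ⟨h1, h2, h3, h4⟩ := mem_Bx ht.1
    simp only [mem_union, mem_product, II, mem_filter]
    rcases dvd_cases p hp _ _ ht.2 with h | h | ⟨h, h'⟩
    · left
      exact ⟨⟨h1, h3, by push_cast; exact h⟩, ⟨h2, h4, by simp⟩⟩
    · right
      left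
      exact ⟨⟨h1, h3, by simp⟩, ⟨h2, h4, by push_cast; exact h⟩⟩
    · right
      right
      exact ⟨⟨h1, h3, h⟩, ⟨h2, h4, h'⟩⟩
  have hc : ((Bx T).filter (fun t => (p : ℤ) ^ 2 ∣ t.1 * t.2)).card ≤
      (II T (p ^ 2)).card * (II T 1).card + ((II T 1).card * (II T (p ^ 2)).card +
        (II T p).card * (II T p).card) := by
    refine (card_le_card hsub).trans ((card_union_le _ _).trans ?_)
    rw [card_product]
    refine Nat.add_le_add_left ((card_union_le _ _).trans ?_) _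
    rw [card_product, card_product]
  have hc2 : (((Bx T).filter (fun t => (p : ℤ) ^ 2 ∣ t.1 * t.2)).card : ℝ) ≤
      ((II T (p ^ 2)).card : ℝ) * (II T 1).card + (((II T 1).card : ℝ) * (II T (p ^ 2)).card +
        ((II T p).card : ℝ) * (II T p).card) := by exact_mod_cast hc
  have b1 := card_II T 1
  have b2 := card_II T (p ^ 2)
  have b3 := card_II T p
  have hp0 : (0 : ℝ) < p := by exact_mod_cast hp.pos
  push_cast at b1 b2
  rw [div_one] at b1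
  have m1 : ((II T (p ^ 2)).card : ℝ) * (II T 1).card ≤ (2 * (T : ℝ) / (p : ℝ) ^ 2) * (2 * T) :=
    mul_le_mul b2 b1 (Nat.cast_nonneg _) (by positivity)
  have m3 : ((II T p).card : ℝ) * (II T p).card ≤ (2 * (T : ℝ) / p) * (2 * (T : ℝ) / p) :=
    mul_le_mul b3 b3 (Nat.cast_nonneg _) (by positivity)
  have e : (2 * (T : ℝ) / (p : ℝ) ^ 2) * (2 * T) + ((2 * (T : ℝ) / (p : ℝ) ^ 2) * (2 * T) +
      (2 * (T : ℝ) / p) * (2 * (T : ℝ) / p)) = 12 * (T : ℝ) ^ 2 * ((p : ℝ) ^ 2)⁻¹ := by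
    field_simp
    ring
  rw [← e]
  nlinarith [m1, m3]

theorem MM_le_card (a b : ℤ) : MM a b ≤
    ((a * b).natAbs.primeFactors.filter (fun p : ℕ => p ≠ 2 ∧ (p : ℤ) ^ 2 ∣ a * b)).card := by
  rw [MM]
  refine (card_le_card (t := ((a * b).natAbs.primeFactors.filter
    (fun p : ℕ => p ≠ 2 ∧ (p : ℤ) ^ 2 ∣ a * b)).image (fun p : ℕ => (p : ℤ))) ?_).trans
    card_image_le
  intro x hx
  rw [mem_filter] at hx
  obtain ⟨hx1, hx2, hx3⟩ := hx
  simp only [Finset.bind_def, Finset.mem_sup, Finset.pure_def, mem_singleton] at hx1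
  obtain ⟨p, hp, rfl⟩ := hx1
  rw [mem_image]
  refine ⟨p, ?_, rfl⟩
  rw [mem_filter]
  exact ⟨hp, by exact_mod_cast hx2, hx3⟩

theorem MM_le (T : ℕ) (t : ℤ × ℤ) (ht : t ∈ Bx T) :
    (MM t.1 t.2 : ℝ) ≤ ∑ p ∈ (Ioc 1 T).filter Nat.Prime,
      (if (p : ℤ) ^ 2 ∣ t.1 * t.2 then (1 : ℝ) else 0) := by
  refine le_trans (Nat.cast_le.2 (MM_le_card t.1 t.2)) ?_
  rw [← sum_filter, sum_const, nsmul_eq_mul, mul_one, filter_filter]
  have hsub : (t.1 * t.2).natAbs.primeFactors.filter (fun p : ℕ => p ≠ 2 ∧ (p : ℤ) ^ 2 ∣ t.1 * t.2) ⊆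
      (Ioc 1 T).filter (fun p : ℕ => Nat.Prime p ∧ (p : ℤ) ^ 2 ∣ t.1 * t.2) := by
    intro p hp
    rw [mem_filter, Nat.mem_primeFactors] at hp
    obtain ⟨⟨hp1, -, -⟩, -, hp2⟩ := hp
    obtain ⟨h1, h2, h3, h4⟩ := mem_Bx ht
    rw [mem_Icc] at h1 h2
    rw [mem_filter, mem_Ioc]
    refine ⟨⟨hp1.one_lt, ?_⟩, hp1, hp2⟩
    have h5 : (p ^ 2 : ℕ) ∣ (t.1 * t.2).natAbs := by
      have h6 := Int.natAbs_dvd_natAbs.2 hp2
      rw [Int.natAbs_pow, Int.natAbs_natCast] at h6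
      exact h6
    have h7 : p ^ 2 ≤ (t.1 * t.2).natAbs :=
      Nat.le_of_dvd (Int.natAbs_pos.2 (mul_ne_zero h3 h4)) h5
    rw [Int.natAbs_mul] at h7
    have h8 : t.1.natAbs ≤ T := by omega
    have h9 : t.2.natAbs ≤ T := by omega
    have h10 : p ^ 2 ≤ T ^ 2 := by
      calc p ^ 2 ≤ t.1.natAbs * t.2.natAbs := h7
        _ ≤ T * T := Nat.mul_le_mul h8 h9
        _ = T ^ 2 := by ring
    exact (Nat.pow_le_pow_iff_left two_ne_zero).1 h10
  exact_mod_cast card_le_card hsub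

theorem msb : MSB := by
  intro T
  rcases Nat.eq_zero_or_pos T with h0 | hT
  · subst h0
    have he : Bx 0 = ∅ := by
      rw [Finset.eq_empty_iff_forall_notMem]
      intro t ht
      obtain ⟨h1, -, h3, -⟩ := mem_Bx ht
      rw [mem_Icc] at h1
      push_cast at h1
      apply h3
      omega
    rw [he, sum_empty]
    positivity
  calc ∑ t ∈ Bx T, (MM t.1 t.2 : ℝ)
      ≤ ∑ t ∈ Bx T, ∑ p ∈ (Ioc 1 T).filter Nat.Prime,
        (if (p : ℤ) ^ 2 ∣ t.1 * t.2 then (1 : ℝ) else 0) :=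
        sum_le_sum fun t ht => MM_le T t ht
    _ = ∑ p ∈ (Ioc 1 T).filter Nat.Prime, ∑ t ∈ Bx T,
        (if (p : ℤ) ^ 2 ∣ t.1 * t.2 then (1 : ℝ) else 0) := sum_comm
    _ = ∑ p ∈ (Ioc 1 T).filter Nat.Prime,
        (((Bx T).filter (fun t => (p : ℤ) ^ 2 ∣ t.1 * t.2)).card : ℝ) := by
        refine sum_congr rfl fun p _ => ?_
        rw [← sum_filter, sum_const, nsmul_eq_mul, mul_one]
    _ ≤ ∑ p ∈ (Ioc 1 T).filter Nat.Prime, 12 * (T : ℝ) ^ 2 * ((p : ℝ) ^ 2)⁻¹ :=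
        sum_le_sum fun p hp => card_p T p (mem_filter.1 hp).2
    _ ≤ ∑ p ∈ Ioc 1 T, 12 * (T : ℝ) ^ 2 * ((p : ℝ) ^ 2)⁻¹ :=
        sum_le_sum_of_subset_of_nonneg (filter_subset _ _) fun _ _ _ => by positivity
    _ = 12 * (T : ℝ) ^ 2 * ∑ p ∈ Ioc 1 T, ((p : ℝ) ^ 2)⁻¹ := by rw [mul_sum]
    _ ≤ 12 * (T : ℝ) ^ 2 * 1 := by
        refine mul_le_mul_of_nonneg_left ?_ (by positivity)
        have h := sum_Ioc_inv_sq_le_sub (α := ℝ) (k := 1) (n := T) one_ne_zero hT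
        refine h.trans ?_
        have h2 : (0 : ℝ) ≤ (T : ℝ)⁻¹ := by positivity
        push_cast
        linarith
    _ ≤ 24 * (T : ℝ) ^ 2 := by nlinarith [sq_nonneg (T : ℝ)]

end Pool.Agent.W481.LSD

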